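import Pool.Agent.H.MP_20495c_lc.K.Main
import Pool.Agent.H.MP_20495c_lc.K.LL

/-!
# MP_20495c_lc: boldface Pi-1-n-uniformization can be forced over L, for every n ≥ 3

The full (positive) answer to Q1 (the case n = 5), without large cardinals.
-/

namespace Pool.Agent.Results.MP_20495c_lc.PiUniformization

open Pool.Agent.H.MP_a163f2_lc Pool.Agent.H.MP_20495c_lc

/-- For every transitive set or class `M` which satisfies ZFC and V = L, and for every `n ≥ 3`,
there is a forcing notion `P` (with the order `Q`) in `M` such that the boldface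
Pi-1-n-uniformization property holds in every generic extension of `M` by `P`. The first two parts
say that the class L and countable models satisfy the hypothesis. -/
theorem result :
    (∃ M : Set ZFSet.{0}, Trans M ∧ ZFC M ∧ VL M ∧ ∀ x : ZFSet.{0}, x.IsOrdinal → x ∈ M) ∧
    (∃ M : Set ZFSet.{0}, Trans M ∧ M.Countable ∧ ZFC M ∧ VL M) ∧
    ∀ M : Set ZFSet.{0}, Trans M → ZFC M → VL M → ∀ n ≥ 3, ∃ P ∈ M, ∃ Q ∈ M, IsPre P Q ∧
      ∀ G : ZFSet.{0}, Generic M P Q {x | x ∈ G} →
        ∃ N : Set ZFSet.{0}, IsGext M G N ∧ Unif (PiM (Reals N) n 2) :=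
  ⟨K.exists_ll, exists_vl, fun _ hT hZ hV _ hn => final_class hT hZ hV hn⟩

end Pool.Agent.Results.MP_20495c_lc.PiUniformization
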